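import Mathlib

set_option autoImplicit false

namespace Pool.Agent.Results.MP_72c4d1_al.Affine

/-- Affine permutations of `ZMod n`. -/
def IsAff {n : ℕ} (π : Equiv.Perm (ZMod n)) : Prop :=
  ∃ (a : (ZMod n)ˣ) (b : ZMod n), ∀ i, π i = a * i + b

/-- The lifted dihedral group. -/
def D (n : ℕ) : Set (Equiv.Perm (ZMod n)) :=
  {π | ∃ (u : (ZMod n)ˣ) (b : ZMod n),
    (u : ZMod n).val ^ 2 ≡ 1 [MOD ∏ p ∈ n.primeFactors, p] ∧ ∀ i, π i = u * i + b}

/-- The coset of `σ`. -/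
def coset {n : ℕ} (σ : Equiv.Perm (ZMod n)) : Set (Equiv.Perm (ZMod n)) :=
  {π | ∃ h ∈ D n, π = σ * h}

theorem IsAff.mul {n : ℕ} {π ρ : Equiv.Perm (ZMod n)} (h : IsAff π) (h' : IsAff ρ) :
    IsAff (π * ρ) := by
  obtain ⟨a, b, h⟩ := h
  obtain ⟨c, d, h'⟩ := h'
  exact ⟨a * c, a * d + b, fun i => by simp [h, h']; ring⟩

theorem IsAff.inv {n : ℕ} {π : Equiv.Perm (ZMod n)} (h : IsAff π) : IsAff π⁻¹ := by
  obtain ⟨a, b, h⟩ := h
  refine ⟨a⁻¹, -(a⁻¹ * b), fun i => π.injective ?_⟩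
  rw [h (_ + _)]
  simp [mul_add]

theorem memD {n : ℕ} [NeZero n] (π : Equiv.Perm (ZMod n)) (u : (ZMod n)ˣ) (b : ZMod n)
    (hu : (u : ZMod n) ^ 2 = 1) (h : ∀ i, π i = u * i + b) : π ∈ D n := by
  refine ⟨u, b, Nat.ModEq.of_dvd (Nat.prod_primeFactors_dvd n) ?_, h⟩
  rw [← ZMod.natCast_eq_natCast_iff]
  simpa using hu

theorem core {n : ℕ} [NeZero n] (h2 : IsUnit (2 : ZMod n)) (σ : Equiv.Perm (ZMod n))
    (h1 : IsAff (σ * Equiv.addRight 1 * σ⁻¹)) (h3 : IsAff (σ⁻¹ * Equiv.neg _ * σ)) : IsAff σ := by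
  obtain ⟨u, b, hg⟩ := h1
  obtain ⟨v, c, hv⟩ := h3
  have g : ∀ x, σ (x + 1) = u * σ x + b := fun x => by simpa using hg (σ x)
  have w : ∀ x, σ (v * x + c) = -σ x := fun x => by rw [← hv]; simp
  have hb : IsUnit b := by
    have : ∀ k : ℕ, b ∣ σ (σ⁻¹ 0 + k) := by
      intro k
      induction k with
      | zero => simp
      | succ k ih =>
        rw [Nat.cast_succ, ← add_assoc, g]
        exact dvd_add (ih.mul_left _) dvd_rfl
    have := this (σ⁻¹ 1 - σ⁻¹ 0).val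
    rw [ZMod.natCast_zmod_val] at this
    exact isUnit_of_dvd_one (by simpa using this)
  have inv : ∀ x, v * (v * x + c) + c = x := fun x => σ.injective (by rw [w, w, neg_neg])
  have e : ∀ x, σ (x + (1 - v)) = σ x + 2 * b := by
    intro x
    have a1 := g (v * x + c - 1)
    rw [sub_add_cancel, w] at a1
    have a2 := g (v * (v * x + c - 1) + c)
    rw [w] at a2
    have a3 : x + (1 - v) = v * (v * x + c - 1) + c + 1 := by linear_combination -inv x
    rw [a3, a2]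
    linear_combination a1
  have it : ∀ k : ZMod n, σ (k * (1 - v)) = σ 0 + k * (2 * b) := by
    intro k
    rw [← ZMod.natCast_zmod_val k]
    induction k.val with
    | zero => simp
    | succ k ih => rw [Nat.cast_succ, add_mul, one_mul, e, ih]; ring
  obtain ⟨a, ha⟩ := h2.mul hb
  have he : ((σ 1 - σ 0) * a⁻¹) * (1 - v) = 1 := σ.injective (by rw [it, ← ha]; simp)
  have hu : IsUnit ((σ 1 - σ 0) * a⁻¹ * a) :=
    (IsUnit.of_mul_eq_one _ he).mul a.isUnit
  refine ⟨hu.unit, σ 0, fun i => ?_⟩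
  have := it (i * ((σ 1 - σ 0) * a⁻¹))
  rw [mul_assoc, he, mul_one, ← ha] at this
  rw [this, IsUnit.unit_spec]
  ring

theorem result (n : ℕ) (hn : 5 ≤ n) (h6 : Nat.gcd n 6 = 1) (σ : Equiv.Perm (ZMod n))
    (N : ℕ) (hN : 2 ≤ N)
    (hcl : ∀ l : List (Equiv.Perm (ZMod n)), l.length = N → (∀ π ∈ l, π ∈ coset σ) →
      l.prod ∈ coset σ) : IsAff σ := by
  haveI : NeZero n := ⟨by omega⟩
  obtain ⟨M, rfl⟩ : ∃ M, N = M + 2 := ⟨N - 2, by omega⟩
  have h2 : IsUnit (2 : ZMod n) := by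
    have : Nat.Coprime 2 n := (Nat.Coprime.coprime_dvd_right (by norm_num : 2 ∣ 6) h6).symm
    simpa using (ZMod.isUnit_iff_coprime 2 n).2 this
  have m1 : σ ∈ coset σ := ⟨1, memD _ 1 0 (by simp) (by simp), by simp⟩
  have m2 : σ * Equiv.addRight 1 ∈ coset σ := ⟨_, memD _ 1 1 (by simp) (by simp), rfl⟩
  have m3 : σ * Equiv.neg _ ∈ coset σ := ⟨_, memD _ (-1) 0 (by simp) (by simp), rfl⟩
  have out : ∀ π, σ * π ∈ coset σ → IsAff π := by
    rintro π ⟨h, ⟨u, b, -, hh⟩, e⟩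
    rw [mul_left_cancel e]
    exact ⟨u, b, hh⟩
  have a1 : IsAff (σ ^ (M + 1)) := out _ (by
    have := hcl (List.replicate (M + 2) σ) (by simp) (fun π h => List.eq_of_mem_replicate h ▸ m1)
    rwa [List.prod_replicate, pow_succ'] at this)
  have a2 : IsAff (σ * Equiv.addRight 1 * σ ^ M) := out _ (by
    have := hcl (σ :: (σ * Equiv.addRight 1) :: List.replicate M σ) (by simp) (by
      intro π h
      simp only [List.mem_cons] at h
      rcases h with rfl | rfl | h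
      exacts [m1, m2, List.eq_of_mem_replicate h ▸ m1])
    simpa using this)
  have a3 : IsAff (σ ^ M * Equiv.neg _ * σ) := out _ (by
    have := hcl (List.replicate M σ ++ [σ * Equiv.neg _, σ]) (by simp) (by
      intro π h
      simp only [List.mem_append, List.mem_cons, List.not_mem_nil, or_false] at h
      rcases h with h | rfl | rfl
      exacts [List.eq_of_mem_replicate h ▸ m1, m3, m1])
    convert this using 1
    simp only [List.prod_append, List.prod_replicate, List.prod_cons, List.prod_nil]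
    group)
  refine core h2 σ ?_ ?_
  · convert a2.mul a1.inv using 1
    group
  · convert a1.inv.mul a3 using 1
    group

end Pool.Agent.Results.MP_72c4d1_al.Affine
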